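import Mathlib
import Pool.Agent.Helper234.L1MAP.Measureq
import Pool.Agent.Helper234.L1MAP.Equivq
import Pool.Agent.Helper234.Calkin.Defs

set_option autoImplicit false
open scoped Matrix.Norms.L2Operator

namespace Pool.Agent.Helper234.L1MAP

open Pool.Agent.Helper234.Calkin (Y sMat uMat symW e11)










open Matrix in
theorem bq_entry_le {n : Type} [Fintype n] [DecidableEq n] (A : Matrix n n ℂ) (a b : n) :
    ‖A a b‖ ≤ ‖A‖ := by
  have h1 := Matrix.l2_opNorm_mulVec A (EuclideanSpace.single b (1 : ℂ))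
  have h2 : ‖(EuclideanSpace.single b (1 : ℂ) : EuclideanSpace ℂ n)‖ = 1 := by simp
  rw [h2, mul_one] at h1
  refine le_trans ?_ h1
  have h3 := PiLp.norm_apply_le (p := 2) ((EuclideanSpace.equiv n ℂ).symm
    (A *ᵥ (EuclideanSpace.single b (1 : ℂ) : EuclideanSpace ℂ n).ofLp)) a
  refine le_trans (le_of_eq ?_) h3
  congr 1
  simp [Matrix.mulVec, dotProduct]

theorem bq_sMat_unitary (p : ℕ → ℕ) (i : ℕ) [NeZero (p i)] (k : Fin 9) :
    (sMat p i k).conjTranspose * sMat p i k = 1 := by
  have hexp : ∀ t : ℂ, (starRingEnd ℂ) t = -t → (starRingEnd ℂ) (Complex.exp t) *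
      Complex.exp t = 1 := by
    intro t ht
    rw [← Complex.exp_conj, ht, ← Complex.exp_add]
    simp
  have hdiag : ∀ d : Y p i → ℂ, (∀ x, (starRingEnd ℂ) (d x) * d x = 1) →
      (Matrix.diagonal d).conjTranspose * Matrix.diagonal d = 1 := by
    intro d hd
    rw [Matrix.diagonal_conjTranspose, Matrix.diagonal_mul_diagonal, ← Matrix.diagonal_one]
    congr 1
    funext x
    exact hd x
  have hperm : ∀ g : Y p i → Y p i, Function.Injective g →
      (Matrix.of (fun x y : Y p i => if x = g y then (1 : ℂ) else 0)).conjTranspose *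
        Matrix.of (fun x y : Y p i => if x = g y then (1 : ℂ) else 0) = 1 := by
    intro g hg
    ext a b
    rw [Matrix.mul_apply, Finset.sum_eq_single (g a)]
    · simp only [Matrix.conjTranspose_apply, Matrix.of_apply, if_true, star_one, one_mul,
        Matrix.one_apply]
      by_cases h : a = b
      · subst h; simp
      · rw [if_neg h, if_neg (fun h2 => h (hg h2))]
    · intro c _ hc
      simp [Matrix.conjTranspose_apply, Matrix.of_apply, hc]
    · simp
  have hconj : ∀ r : ℂ, (starRingEnd ℂ) r = r →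
      (starRingEnd ℂ) (2 * Real.pi * Complex.I * r) = -(2 * Real.pi * Complex.I * r) := by
    intro r hr
    rw [map_mul, map_mul, map_mul, hr, Complex.conj_ofReal, Complex.conj_I, map_ofNat]
    ring
  have hrat : ∀ a b : ℕ, (starRingEnd ℂ) ((a : ℂ) / (b : ℂ)) = (a : ℂ) / (b : ℂ) := by
    intro a b
    simp
  fin_cases k
  · change (1 : Matrix (Y p i) (Y p i) ℂ).conjTranspose * 1 = 1
    simp
  · exact hdiag _ (fun x => hexp _ (hconj _ (hrat _ _)))
  · refine hdiag _ (fun x => hexp _ ?_)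
    rw [map_neg, hconj _ (hrat _ _)]
  · exact hdiag _ (fun x => hexp _ (hconj _ (hrat _ _)))
  · refine hdiag _ (fun x => hexp _ ?_)
    rw [map_neg, hconj _ (hrat _ _)]
  · refine hperm (fun y => (y.1 + y.2, y.2)) ?_
    rintro ⟨a, b⟩ ⟨c, d⟩ h
    simp only [Prod.mk.injEq] at h ⊢
    obtain ⟨h1, rfl⟩ := h
    exact ⟨add_right_cancel h1, rfl⟩
  · refine hperm (fun y => (y.1 - y.2, y.2)) ?_
    rintro ⟨a, b⟩ ⟨c, d⟩ h
    simp only [Prod.mk.injEq] at h ⊢
    obtain ⟨h1, rfl⟩ := h
    exact ⟨sub_left_injective h1, rfl⟩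
  · refine hperm (fun y => (y.1, y.2 + y.1)) ?_
    rintro ⟨a, b⟩ ⟨c, d⟩ h
    simp only [Prod.mk.injEq] at h ⊢
    obtain ⟨rfl, h1⟩ := h
    exact ⟨rfl, add_right_cancel h1⟩
  · refine hperm (fun y => (y.1, y.2 - y.1)) ?_
    rintro ⟨a, b⟩ ⟨c, d⟩ h
    simp only [Prod.mk.injEq] at h ⊢
    obtain ⟨rfl, h1⟩ := h
    exact ⟨rfl, sub_left_injective h1⟩

theorem uMat_norm_eq (p : ℕ → ℕ) [∀ i, NeZero (p i)] (k : Fin 2 × Fin 2 × Fin 9) (i : ℕ) :
    ‖uMat p k i‖ = 1 := by
  have h1 : (uMat p k i).conjTranspose * uMat p k i =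
      Matrix.diagonal (fun b : Fin 2 × Y p i => if b.1 = k.2.1 then (1 : ℂ) else 0) := by
    ext b b'
    have hs := congrFun (congrFun (bq_sMat_unitary p i k.2.2) b.2) b'.2
    rw [Matrix.mul_apply] at hs
    rw [Matrix.mul_apply, Fintype.sum_prod_type, Finset.sum_eq_single k.1]
    · simp only [uMat, Matrix.conjTranspose_apply, Matrix.of_apply, true_and] at hs ⊢
      by_cases hb : b.1 = k.2.1
      · by_cases hb' : b'.1 = k.2.1
        · simp only [hb, hb', if_true]
          rw [hs, Matrix.diagonal_apply, Matrix.one_apply, hb, if_pos rfl]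
          by_cases h2 : b.2 = b'.2
          · rw [if_pos h2, if_pos (Prod.ext (hb.trans hb'.symm) h2)]
          · rw [if_neg h2, if_neg (fun h => h2 (congrArg Prod.snd h))]
        · simp only [hb', if_false, mul_zero, Finset.sum_const_zero]
          rw [Matrix.diagonal_apply, if_neg]
          rintro rfl
          exact hb' hb
      · simp only [hb, if_false, star_zero, zero_mul, Finset.sum_const_zero]
        rw [Matrix.diagonal_apply]
        simp [hb]
    · intro a _ ha
      apply Finset.sum_eq_zero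
      intro x _
      simp [uMat, Matrix.conjTranspose_apply, ha]
    · intro h; exact absurd (Finset.mem_univ _) h
  have h2 := Matrix.l2_opNorm_conjTranspose_mul_self (uMat p k i)
  rw [h1, Matrix.l2_opNorm_diagonal] at h2
  have h3 : ‖fun b : Fin 2 × Y p i => if b.1 = k.2.1 then (1 : ℂ) else 0‖ ≤ 1 := by
    rw [pi_norm_le_iff_of_nonneg zero_le_one]
    intro b
    split_ifs <;> simp
  have h4 : 1 ≤ ‖fun b : Fin 2 × Y p i => if b.1 = k.2.1 then (1 : ℂ) else 0‖ := by
    have := norm_le_pi_norm (fun b : Fin 2 × Y p i => if b.1 = k.2.1 then (1 : ℂ) else 0)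
      (k.2.1, 0)
    simpa using this
  rw [h2] at h3 h4
  nlinarith [norm_nonneg (uMat p k i)]

theorem bq_e11_norm {Z : Type} [Fintype Z] [DecidableEq Z] (f : Z → ℂ) (c : ℝ) (hc : 0 ≤ c)
    (hf : ∀ x, ‖f x‖ ≤ c) : ‖e11 f‖ ≤ c := by
  unfold e11
  rw [Matrix.l2_opNorm_diagonal, pi_norm_le_iff_of_nonneg hc]
  intro a
  split_ifs
  · exact hf _
  · simpa using hc

/-- the averaged functional -/
noncomputable def bq_nu (p : ℕ → ℕ) [∀ i, NeZero (p i)] (j : ℕ)
    (T : (∀ i, Matrix (Fin 2 × Y p i) (Fin 2 × Y p i) ℂ) →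
      Matrix (Fin 2 × Y p j) (Fin 2 × Y p j) ℂ)
    (F : (i : ℕ) → ZMod (p i) × ZMod (p i) → ZMod (p j) × ZMod (p j) → ℝ) : ℝ :=
  (1 / (Fintype.card (Y p j) : ℝ)) *
    ∑ y : Y p j, (T (fun i => e11 (fun x => (F i x y : ℂ))) (0, y) (0, y)).re

theorem bq_avg_close {Z : Type} [Fintype Z] [Nonempty Z] (a b : Z → ℝ) (δ : ℝ)
    (h : ∀ y, |a y - b y| ≤ δ) :
    |(1 / (Fintype.card Z : ℝ)) * ∑ y, a y - (1 / (Fintype.card Z : ℝ)) * ∑ y, b y| ≤ δ := by
  have hN : (0 : ℝ) < Fintype.card Z := Nat.cast_pos.2 Fintype.card_pos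
  rw [← mul_sub, ← Finset.sum_sub_distrib, abs_mul]
  have h1 : |∑ y, (a y - b y)| ≤ Fintype.card Z * δ := by
    refine (Finset.abs_sum_le_sum_abs _ _).trans ?_
    refine (Finset.sum_le_sum (fun y _ => h y)).trans ?_
    rw [Finset.sum_const, Finset.card_univ, nsmul_eq_mul]
  have h2 : |(1 / (Fintype.card Z : ℝ))| = 1 / (Fintype.card Z : ℝ) := abs_of_pos (by positivity)
  rw [h2]
  calc 1 / (Fintype.card Z : ℝ) * |∑ y, (a y - b y)|
      ≤ 1 / (Fintype.card Z : ℝ) * (Fintype.card Z * δ) := by gcongr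
    _ = δ := by field_simp

section bq_facts

variable (p : ℕ → ℕ) [∀ i, NeZero (p i)] (j : ℕ)
    (T : (∀ i, Matrix (Fin 2 × Y p i) (Fin 2 × Y p i) ℂ) →
      Matrix (Fin 2 × Y p j) (Fin 2 × Y p j) ℂ)
    (hT : ∀ (x : ∀ i, Matrix (Fin 2 × Y p i) (Fin 2 × Y p i) ℂ) (c : ℝ),
      (∀ᶠ i in Filter.atTop, ‖x i‖ ≤ c) → ‖T x‖ ≤ (1 + 1 / 10 ^ 16) * c)
    (hL : ∀ (x y : ∀ i, Matrix (Fin 2 × Y p i) (Fin 2 × Y p i) ℂ) (a b c d : ℝ),
      (∀ᶠ i in Filter.atTop, ‖x i‖ ≤ c) → (∀ᶠ i in Filter.atTop, ‖y i‖ ≤ d) →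
      ‖T (fun i => (a : ℂ) • x i + (b : ℂ) • y i) - ((a : ℂ) • T x + (b : ℂ) • T y)‖ ≤
        1 / 10 ^ 16 * (|a| * c + |b| * d))
    (hu : ∀ k, ‖T (uMat p k) - uMat p k j‖ ≤ 1 / 10 ^ 16)
    (hui : ∀ k, ‖T (fun i => Complex.I • uMat p k i) - Complex.I • uMat p k j‖ ≤ 1 / 10 ^ 16)

include hL in
theorem bq_comb (x y : ∀ i, Matrix (Fin 2 × Y p i) (Fin 2 × Y p i) ℂ)
    (X Z : Matrix (Fin 2 × Y p j) (Fin 2 × Y p j) ℂ) (a b δ δ' : ℝ)
    (hx : ∀ i, ‖x i‖ ≤ 2) (hy : ∀ i, ‖y i‖ ≤ 2) (ha : |a| ≤ 1) (hb : |b| ≤ 1)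
    (hX : ‖T x - X‖ ≤ δ) (hZ : ‖T y - Z‖ ≤ δ') :
    ‖T (fun i => (a : ℂ) • x i + (b : ℂ) • y i) - ((a : ℂ) • X + (b : ℂ) • Z)‖ ≤
      4 / 10 ^ 16 + δ + δ' := by
  have h1 := hL x y a b 2 2 (Filter.Eventually.of_forall hx) (Filter.Eventually.of_forall hy)
  have h2 : T (fun i => (a : ℂ) • x i + (b : ℂ) • y i) - ((a : ℂ) • X + (b : ℂ) • Z) =
      (T (fun i => (a : ℂ) • x i + (b : ℂ) • y i) - ((a : ℂ) • T x + (b : ℂ) • T y)) +
        (a : ℂ) • (T x - X) + (b : ℂ) • (T y - Z) := by
    rw [smul_sub, smul_sub]; abel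
  have h3 : ‖(a : ℂ) • (T x - X)‖ ≤ δ := by
    rw [norm_smul, Complex.norm_real, Real.norm_eq_abs]
    nlinarith [norm_nonneg (T x - X), abs_nonneg a]
  have h4 : ‖(b : ℂ) • (T y - Z)‖ ≤ δ' := by
    rw [norm_smul, Complex.norm_real, Real.norm_eq_abs]
    nlinarith [norm_nonneg (T y - Z), abs_nonneg b]
  have h5 : (1:ℝ) / 10 ^ 16 * (|a| * 2 + |b| * 2) ≤ 4 / 10 ^ 16 := by
    have : |a| * 2 + |b| * 2 ≤ 4 := by linarith
    calc (1:ℝ) / 10 ^ 16 * (|a| * 2 + |b| * 2) ≤ 1 / 10 ^ 16 * 4 := by gcongr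
      _ = 4 / 10 ^ 16 := by ring
  rw [h2]
  refine (norm_add_le _ _).trans ?_
  refine (add_le_add_left (norm_add_le _ _) _).trans ?_
  linarith

include hT in
theorem bq_bound (F : (i : ℕ) → ZMod (p i) × ZMod (p i) → ZMod (p j) × ZMod (p j) → ℝ) (c : ℝ)
    (hF : ∀ i x y, |F i x y| ≤ c) : |bq_nu p j T F| ≤ (1 + 1 / 1000) * c := by
  have hc : 0 ≤ c := (abs_nonneg _).trans (hF 0 0 0)
  have h1 := bq_avg_close (Z := Y p j)
    (fun y => (T (fun i => e11 (fun x => (F i x y : ℂ))) (0, y) (0, y)).re) (fun _ => 0)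
    ((1 + 1 / 1000) * c) (by
      intro y
      rw [sub_zero]
      refine (Complex.abs_re_le_norm _).trans ?_
      refine (bq_entry_le _ _ _).trans ?_
      refine (hT _ c (Filter.Eventually.of_forall fun i =>
        bq_e11_norm _ c hc (fun x => by
          rw [Complex.norm_real, Real.norm_eq_abs]; exact hF i x y))).trans ?_
      apply mul_le_mul_of_nonneg_right _ hc
      norm_num)
  rw [Finset.sum_const_zero, mul_zero, sub_zero] at h1
  exact h1

include hL in
theorem bq_lin (F G : (i : ℕ) → ZMod (p i) × ZMod (p i) → ZMod (p j) × ZMod (p j) → ℝ)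
    (a b c d : ℝ) (hF : ∀ i x y, |F i x y| ≤ c) (hG : ∀ i x y, |G i x y| ≤ d) :
    |bq_nu p j T (fun i x y => a * F i x y + b * G i x y) -
      (a * bq_nu p j T F + b * bq_nu p j T G)| ≤ 1 / 1000 * (|a| * c + |b| * d) := by
  have hc : 0 ≤ c := (abs_nonneg _).trans (hF 0 0 0)
  have hd : 0 ≤ d := (abs_nonneg _).trans (hG 0 0 0)
  have h1 := bq_avg_close (Z := Y p j)
    (fun y => (T (fun i => e11 (fun x => ((a * F i x y + b * G i x y : ℝ) : ℂ))) (0, y) (0, y)).re)
    (fun y => a * (T (fun i => e11 (fun x => (F i x y : ℂ))) (0, y) (0, y)).re +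
      b * (T (fun i => e11 (fun x => (G i x y : ℂ))) (0, y) (0, y)).re)
    (1 / 1000 * (|a| * c + |b| * d)) (by
      intro y
      have h2 := hL (fun i => e11 (fun x : Y p i => (F i x y : ℂ)))
        (fun i => e11 (fun x : Y p i => (G i x y : ℂ))) a b c d
        (Filter.Eventually.of_forall fun i =>
        bq_e11_norm _ c hc (fun x => by
          rw [Complex.norm_real, Real.norm_eq_abs]; exact hF i x y))
        (Filter.Eventually.of_forall fun i =>
        bq_e11_norm _ d hd (fun x => by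
          rw [Complex.norm_real, Real.norm_eq_abs]; exact hG i x y))
      have h3 : (fun i => (a : ℂ) • e11 (fun x : Y p i => (F i x y : ℂ)) +
          (b : ℂ) • e11 (fun x : Y p i => (G i x y : ℂ))) =
          (fun i => e11 (fun x : Y p i => ((a * F i x y + b * G i x y : ℝ) : ℂ))) := by
        funext i
        ext u v
        simp only [e11, Matrix.add_apply, Matrix.smul_apply, Matrix.diagonal_apply, smul_eq_mul]
        by_cases huv : u = v
        · by_cases hu0 : u.1 = 0
          · simp only [huv, if_true]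
            subst huv
            simp only [hu0, if_true]
            push_cast; ring
          · subst huv
            simp [hu0]
        · simp [huv]
      rw [h3] at h2
      have h4 := (bq_entry_le _ (0, y) (0, y)).trans h2
      have h5 := (Complex.abs_re_le_norm _).trans h4
      simp only [Matrix.sub_apply, Matrix.add_apply, Matrix.smul_apply, smul_eq_mul,
        Complex.sub_re, Complex.add_re, Complex.re_ofReal_mul] at h5
      refine h5.trans ?_
      apply mul_le_mul_of_nonneg_right _ (by positivity)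
      norm_num)
  refine le_trans (le_of_eq ?_) h1
  congr 1
  unfold bq_nu
  rw [Finset.sum_add_distrib, ← Finset.mul_sum, ← Finset.mul_sum]
  ring

include hT in
theorem bq_supp (F : (i : ℕ) → ZMod (p i) × ZMod (p i) → ZMod (p j) × ZMod (p j) → ℝ)
    (hF : ∀ i, i ≠ j → F i = 0) : bq_nu p j T F = 0 := by
  unfold bq_nu
  rw [Finset.sum_eq_zero, mul_zero]
  intro y _
  have h1 := hT (fun i => e11 (fun x : Y p i => (F i x y : ℂ))) 0 (by
    filter_upwards [Filter.eventually_gt_atTop j] with i hi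
    apply bq_e11_norm _ 0 le_rfl
    intro x
    rw [hF i hi.ne']
    simp)
  rw [mul_zero] at h1
  have h2 : T (fun i => e11 (fun x : Y p i => (F i x y : ℂ))) = 0 := norm_le_zero_iff.1 h1
  rw [h2]
  rfl

include hL hu hui in
theorem bq_diag (k k' : Fin 9) (θ : (i : ℕ) → Y p i → ℝ)
    (hk : ∀ i, sMat p i k = Matrix.diagonal (fun x => Complex.exp ((θ i x : ℂ) * Complex.I)))
    (hk' : ∀ i, sMat p i k' = Matrix.diagonal (fun x => Complex.exp (-((θ i x : ℂ) * Complex.I)))) :
    |bq_nu p j T (fun i x y => Real.cos (θ i x - θ j y)) - 1| ≤ 1 / 1000 := by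
  have hcard : (Fintype.card (Y p j) : ℝ) ≠ 0 := Nat.cast_ne_zero.2 Fintype.card_ne_zero
  have hun : ∀ k i, ‖uMat p k i‖ ≤ 2 := fun k i => by rw [uMat_norm_eq]; norm_num
  have hIun : ∀ k i, ‖Complex.I • uMat p k i‖ ≤ 2 := fun k i => by
    rw [norm_smul, uMat_norm_eq, Complex.norm_I]; norm_num
  have h1 := bq_avg_close (Z := Y p j)
    (fun y => (T (fun i => e11 (fun x => ((Real.cos (θ i x - θ j y) : ℝ) : ℂ))) (0, y) (0, y)).re)
    (fun _ => 1) (1 / 1000) (by
      intro y
      set cy : ℝ := Real.cos (θ j y) / 2 with hcy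
      set sy : ℝ := Real.sin (θ j y) / 2 with hsy
      have hcy1 : |cy| ≤ 1 := by
        rw [hcy, abs_div]
        have := Real.abs_cos_le_one (θ j y)
        rw [abs_two]; linarith
      have hsy1 : |sy| ≤ 1 := by
        rw [hsy, abs_div]
        have := Real.abs_sin_le_one (θ j y)
        rw [abs_two]; linarith
      have hsy1' : |-sy| ≤ 1 := by rwa [abs_neg]
      have hA := bq_comb p j T hL (uMat p (0, 0, k)) (uMat p (0, 0, k')) _ _ cy cy _ _
        (hun _) (hun _) hcy1 hcy1 (hu _) (hu _)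
      have hB := bq_comb p j T hL (fun i => Complex.I • uMat p (0, 0, k) i)
        (fun i => Complex.I • uMat p (0, 0, k') i) _ _ (-sy) sy _ _
        (hIun _) (hIun _) hsy1' hsy1 (hui _) (hui _)
      have hcs2 : |cy| ≤ 1 / 2 := by
        rw [hcy, abs_div]
        have := Real.abs_cos_le_one (θ j y)
        rw [abs_two]; linarith
      have hsn2 : |sy| ≤ 1 / 2 := by
        rw [hsy, abs_div]
        have := Real.abs_sin_le_one (θ j y)
        rw [abs_two]; linarith
      have hAn : ∀ i, ‖(cy : ℂ) • uMat p (0, 0, k) i + (cy : ℂ) • uMat p (0, 0, k') i‖ ≤ 2 := by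
        intro i
        refine (norm_add_le _ _).trans ?_
        rw [norm_smul, norm_smul, uMat_norm_eq, uMat_norm_eq, Complex.norm_real,
          Real.norm_eq_abs]
        linarith
      have hBn : ∀ i, ‖((-sy : ℝ) : ℂ) • Complex.I • uMat p (0, 0, k) i +
          (sy : ℂ) • Complex.I • uMat p (0, 0, k') i‖ ≤ 2 := by
        intro i
        refine (norm_add_le _ _).trans ?_
        rw [norm_smul, norm_smul, norm_smul, norm_smul, uMat_norm_eq, uMat_norm_eq,
          Complex.norm_real, Complex.norm_real, Real.norm_eq_abs, Real.norm_eq_abs, abs_neg,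
          Complex.norm_I]
        linarith
      have hC := bq_comb p j T hL _ _ _ _ 1 1 _ _ hAn hBn (by simp) (by simp) hA hB
      have hkey : ∀ i, ((1 : ℝ) : ℂ) • ((cy : ℂ) • uMat p (0, 0, k) i + (cy : ℂ) • uMat p (0, 0, k') i) +
          ((1 : ℝ) : ℂ) • (((-sy : ℝ) : ℂ) • Complex.I • uMat p (0, 0, k) i +
          (sy : ℂ) • Complex.I • uMat p (0, 0, k') i) =
          e11 (fun x : Y p i => ((Real.cos (θ i x - θ j y) : ℝ) : ℂ)) := by
        intro i
        ext u v
        simp only [e11, uMat, hk i, hk' i, Matrix.add_apply, Matrix.smul_apply,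
          Matrix.of_apply, smul_eq_mul, Matrix.diagonal_apply]
        by_cases huv : u = v
        · subst huv
          by_cases hu0 : u.1 = 0
          · simp only [hu0, and_self, if_true]
            have e2 : Complex.exp (-((θ i u.2 : ℂ) * Complex.I)) =
                Complex.cos (θ i u.2) - Complex.sin (θ i u.2) * Complex.I := by
              rw [← neg_mul, Complex.exp_mul_I, Complex.cos_neg, Complex.sin_neg]; ring
            rw [e2, Complex.exp_mul_I]
            rw [Real.cos_sub, hcy, hsy]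
            push_cast
            have hI : Complex.I * Complex.I = -1 := Complex.I_mul_I
            linear_combination (-(Complex.sin (θ j y : ℂ)) * Complex.sin (θ i u.2 : ℂ)) * hI
          · simp [hu0]
        · rw [if_neg huv]
          by_cases h0 : u.1 = 0 ∧ v.1 = 0
          · have h2 : u.2 ≠ v.2 := fun h3 => huv (Prod.ext (h0.1.trans h0.2.symm) h3)
            simp [h0.1, h0.2, h2]
          · simp [h0]
      have hkey' : (fun i => ((1 : ℝ) : ℂ) • ((cy : ℂ) • uMat p (0, 0, k) i + (cy : ℂ) • uMat p (0, 0, k') i) +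
          ((1 : ℝ) : ℂ) • (((-sy : ℝ) : ℂ) • Complex.I • uMat p (0, 0, k) i +
          (sy : ℂ) • Complex.I • uMat p (0, 0, k') i)) =
          (fun i => e11 (fun x : Y p i => ((Real.cos (θ i x - θ j y) : ℝ) : ℂ))) := funext hkey
      rw [hkey', hkey j] at hC
      have h4 := (bq_entry_le _ (0, y) (0, y)).trans hC
      have h5 := (Complex.abs_re_le_norm _).trans h4
      have h6 : (e11 (fun x : Y p j => ((Real.cos (θ j x - θ j y) : ℝ) : ℂ))) (0, y) (0, y) = 1 := by
        simp [e11]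
      rw [Matrix.sub_apply, h6, Complex.sub_re, Complex.one_re] at h5
      refine h5.trans ?_
      norm_num)
  rw [Finset.sum_const, Finset.card_univ, nsmul_eq_mul, mul_one, one_div_mul_cancel hcard] at h1
  exact h1

include hT hL hu hui in
theorem bq_equiv (g : ∀ i, Equiv.Perm (Y p i)) (k k' : Fin 9)
    (hk : ∀ i x y, sMat p i k x y = if x = g i y then 1 else 0)
    (hk' : ∀ i x y, sMat p i k' x y = if y = g i x then 1 else 0)
    (F : (i : ℕ) → ZMod (p i) × ZMod (p i) → ZMod (p j) × ZMod (p j) → ℝ)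
    (hF : ∀ i x y, |F i x y| ≤ 1) :
    |bq_nu p j T (fun i x y => F i (g i x) (g j y)) - bq_nu p j T F| ≤ 1 / 1000 := by
  have hun : ∀ k i, ‖uMat p k i‖ ≤ 2 := fun k i => by rw [uMat_norm_eq]; norm_num
  have hIun : ∀ k i, ‖Complex.I • uMat p k i‖ ≤ 2 := fun k i => by
    rw [norm_smul, uMat_norm_eq, Complex.norm_I]; norm_num
  have hsymW : ∀ (h : ∀ i, Equiv.Perm (Y p i)) (l l' : Fin 9),
      (∀ i x y, sMat p i l x y = if x = h i y then 1 else 0) →
      (∀ i x y, sMat p i l' x y = if y = h i x then 1 else 0) →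
      (fun i => symW (h i)) = fun i => uMat p (0, 1, l) i + uMat p (1, 0, l') i := by
    intro h l l' hl hl'
    funext i
    ext a b
    simp only [symW, Matrix.of_apply, Matrix.add_apply, uMat, hl, hl']
    rcases a with ⟨a1, a2⟩
    rcases b with ⟨b1, b2⟩
    fin_cases a1 <;> fin_cases b1 <;> simp
  have hid : ∀ i, sMat p i 0 = 1 := fun i => rfl
  have hone : (fun i => (1 : Matrix (Fin 2 × Y p i) (Fin 2 × Y p i) ℂ)) =
      fun i => uMat p (0, 0, 0) i + uMat p (1, 1, 0) i := by
    funext i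
    ext a b
    simp only [Matrix.add_apply, uMat, hid, Matrix.of_apply, Matrix.one_apply]
    rcases a with ⟨a1, a2⟩
    rcases b with ⟨b1, b2⟩
    fin_cases a1 <;> fin_cases b1 <;> simp
  have hclose : ∀ l l' : Fin 2 × Fin 2 × Fin 9,
      ‖T (fun i => uMat p l i + uMat p l' i) - (uMat p l j + uMat p l' j)‖ ≤ 1 / 10 ^ 15 := by
    intro l l'
    have h1 := bq_comb p j T hL (uMat p l) (uMat p l') _ _ 1 1 _ _ (hun _) (hun _)
      (by simp) (by simp) (hu _) (hu _)
    simp only [Complex.ofReal_one, one_smul] at h1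
    refine h1.trans ?_
    norm_num
  have hcloseI : ∀ l l' : Fin 2 × Fin 2 × Fin 9,
      ‖T (fun i => Complex.I • (uMat p l i + uMat p l' i)) -
        Complex.I • (uMat p l j + uMat p l' j)‖ ≤ 1 / 10 ^ 15 := by
    intro l l'
    have h1 := bq_comb p j T hL (fun i => Complex.I • uMat p l i)
      (fun i => Complex.I • uMat p l' i) _ _ 1 1 _ _ (hIun _) (hIun _)
      (by simp) (by simp) (hui _) (hui _)
    simp only [Complex.ofReal_one, one_smul, ← smul_add] at h1
    refine h1.trans ?_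
    norm_num
  have hW := hsymW g k k' hk hk'
  have hW1 := hsymW (fun i => 1) 0 0 (by
    intro i x y
    rw [hid, Matrix.one_apply]
    rfl) (by
    intro i x y
    rw [hid, Matrix.one_apply]
    simp only [Equiv.Perm.coe_one, id, eq_comm])
  have hWI : (fun i => Complex.I • symW (g i)) =
      fun i => Complex.I • (uMat p (0, 1, k) i + uMat p (1, 0, k') i) := by
    funext i
    rw [show symW (g i) = _ from congrFun hW i]
  have hW1I : (fun i => Complex.I • symW (1 : Equiv.Perm (Y p i))) =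
      fun i => Complex.I • (uMat p (0, 1, 0) i + uMat p (1, 0, 0) i) := by
    funext i
    rw [show symW (1 : Equiv.Perm (Y p i)) = _ from congrFun hW1 i]
  have honeI : (fun i => Complex.I • (1 : Matrix (Fin 2 × Y p i) (Fin 2 × Y p i) ℂ)) =
      fun i => Complex.I • (uMat p (0, 0, 0) i + uMat p (1, 1, 0) i) := by
    funext i
    rw [show (1 : Matrix (Fin 2 × Y p i) (Fin 2 × Y p i) ℂ) = _ from congrFun hone i]
  have hsq : 2000 * Real.sqrt (1 / 10 ^ 15) ≤ 1 / 1000 := by
    have h1 : Real.sqrt (1 / 10 ^ 15) ≤ 1 / 10 ^ 7 := by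
      rw [Real.sqrt_le_left (by norm_num)]
      norm_num
    calc 2000 * Real.sqrt (1 / 10 ^ 15) ≤ 2000 * (1 / 10 ^ 7) := by gcongr
      _ ≤ 1 / 1000 := by norm_num
  have hcl := bq_avg_close (Z := Y p j)
    (fun y => (T (fun i => e11 (fun x => (F i (g i x) (g j y) : ℂ))) (0, y) (0, y)).re)
    (fun y => (T (fun i => e11 (fun x => (F i x (g j y) : ℂ))) (0, g j y) (0, g j y)).re)
    (1 / 1000) (by
      intro y
      refine le_trans ?_ hsq
      rw [← Complex.sub_re]
      refine (Complex.abs_re_le_norm _).trans ?_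
      refine equivarianceQ (Z := fun i => Y p i) j g T (1 / 10 ^ 15) (by norm_num) (by norm_num)
        ?_ ?_ ?_ ?_ ?_ ?_ ?_ ?_ (fun i x => (F i x (g j y) : ℂ)) (fun i x => by
          rw [Complex.norm_real, Real.norm_eq_abs]; exact hF i x _) y
      · intro x c hx
        have hc : 0 ≤ c := (norm_nonneg _).trans (hx 0)
        refine (hT x c (Filter.Eventually.of_forall hx)).trans ?_
        apply mul_le_mul_of_nonneg_right _ hc
        norm_num
      · intro x y a b c d hx hy
        have hc : 0 ≤ c := (norm_nonneg _).trans (hx 0)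
        have hd : 0 ≤ d := (norm_nonneg _).trans (hy 0)
        refine (hL x y a b c d (Filter.Eventually.of_forall hx)
          (Filter.Eventually.of_forall hy)).trans ?_
        apply mul_le_mul_of_nonneg_right _ (by positivity)
        norm_num
      · rw [hone]
        have h1 : (1 : Matrix (Fin 2 × Y p j) (Fin 2 × Y p j) ℂ) =
          uMat p (0, 0, 0) j + uMat p (1, 1, 0) j := congrFun hone j
        rw [h1]
        exact hclose _ _
      · rw [honeI]
        have h1 : (1 : Matrix (Fin 2 × Y p j) (Fin 2 × Y p j) ℂ) =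
          uMat p (0, 0, 0) j + uMat p (1, 1, 0) j := congrFun hone j
        rw [h1]
        exact hcloseI _ _
      · rw [hW]
        have h1 : symW (g j) = uMat p (0, 1, k) j + uMat p (1, 0, k') j := congrFun hW j
        rw [h1]
        exact hclose _ _
      · rw [hWI]
        have h1 : symW (g j) = uMat p (0, 1, k) j + uMat p (1, 0, k') j := congrFun hW j
        rw [h1]
        exact hcloseI _ _
      · have h2 : (fun i => symW (1 : Equiv.Perm (Y p i))) =
          fun i => uMat p (0, 1, 0) i + uMat p (1, 0, 0) i := hW1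
        rw [h2]
        have h1 : symW (1 : Equiv.Perm (Y p j)) = uMat p (0, 1, 0) j + uMat p (1, 0, 0) j :=
          congrFun hW1 j
        rw [h1]
        exact hclose _ _
      · rw [hW1I]
        have h1 : symW (1 : Equiv.Perm (Y p j)) = uMat p (0, 1, 0) j + uMat p (1, 0, 0) j :=
          congrFun hW1 j
        rw [h1]
        exact hcloseI _ _)
  have hre : ∑ y, (T (fun i => e11 (fun x => (F i x (g j y) : ℂ))) (0, g j y) (0, g j y)).re =
      ∑ y, (T (fun i => e11 (fun x => (F i x y : ℂ))) (0, y) (0, y)).re :=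
    Equiv.sum_comp (g j) (fun y => (T (fun i => e11 (fun x => (F i x y : ℂ))) (0, y) (0, y)).re)
  rw [hre] at hcl
  exact hcl

include hT in
theorem bq_zero (hp : 3 ≤ p j) :
    |bq_nu p j T (fun _ _ y => if y = 0 then 1 else 0)| ≤ 1 / 4 := by
  unfold bq_nu
  rw [Finset.sum_eq_single 0]
  · simp only [if_true, Complex.ofReal_one]
    rw [abs_mul, abs_div, abs_one, Nat.abs_cast]
    have hc : (9 : ℝ) ≤ Fintype.card (Y p j) := by
      rw [Fintype.card_prod, ZMod.card]
      have : 9 ≤ p j * p j := by nlinarith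
      exact_mod_cast this
    have h1 : |(T (fun i => e11 (fun _ : Y p i => 1)) (0, 0) (0, 0)).re| ≤
        (1 + 1 / 10 ^ 16) * 1 := by
      refine (Complex.abs_re_le_norm _).trans ?_
      refine (bq_entry_le _ _ _).trans ?_
      apply hT
      exact Filter.Eventually.of_forall fun i => bq_e11_norm _ 1 zero_le_one (fun x => by simp)
    have h2 : 1 / (Fintype.card (Y p j) : ℝ) ≤ 1 / 9 :=
      one_div_le_one_div_of_le (by norm_num) hc
    calc 1 / (Fintype.card (Y p j) : ℝ) * |(T (fun i => e11 (fun _ : Y p i => 1)) (0, 0) (0, 0)).re|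
        ≤ 1 / 9 * ((1 + 1 / 10 ^ 16) * 1) := by
          apply mul_le_mul h2 h1 (abs_nonneg _) (by norm_num)
      _ ≤ 1 / 4 := by norm_num
  · intro y _ hy
    simp only [hy, if_false]
    have h1 := hT (fun i => e11 (fun _ : Y p i => ((0 : ℝ) : ℂ))) 0
      (Filter.Eventually.of_forall fun i => bq_e11_norm _ 0 le_rfl (fun x => by simp))
    rw [mul_zero] at h1
    rw [norm_le_zero_iff.1 h1]
    rfl
  · intro h; exact absurd (Finset.mem_univ _) h

end bq_facts

theorem baseQ (p : ℕ → ℕ) [∀ i, NeZero (p i)] (hp : ∀ i, 3 ≤ p i)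
    (hcop : ∀ i i', i ≠ i' → Nat.Coprime (p i) (p i')) (j : ℕ)
    (T : (∀ i, Matrix (Fin 2 × Y p i) (Fin 2 × Y p i) ℂ) →
      Matrix (Fin 2 × Y p j) (Fin 2 × Y p j) ℂ)
    (hT : ∀ (x : ∀ i, Matrix (Fin 2 × Y p i) (Fin 2 × Y p i) ℂ) (c : ℝ),
      (∀ᶠ i in Filter.atTop, ‖x i‖ ≤ c) → ‖T x‖ ≤ (1 + 1 / 10 ^ 16) * c)
    (hL : ∀ (x y : ∀ i, Matrix (Fin 2 × Y p i) (Fin 2 × Y p i) ℂ) (a b c d : ℝ),
      (∀ᶠ i in Filter.atTop, ‖x i‖ ≤ c) → (∀ᶠ i in Filter.atTop, ‖y i‖ ≤ d) →
      ‖T (fun i => (a : ℂ) • x i + (b : ℂ) • y i) - ((a : ℂ) • T x + (b : ℂ) • T y)‖ ≤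
        1 / 10 ^ 16 * (|a| * c + |b| * d))
    (hu : ∀ k, ‖T (uMat p k) - uMat p k j‖ ≤ 1 / 10 ^ 16)
    (hui : ∀ k, ‖T (fun i => Complex.I • uMat p k i) - Complex.I • uMat p k j‖ ≤ 1 / 10 ^ 16) :
    False := by
  have hone : |bq_nu p j T (fun _ _ _ => 1) - 1| ≤ 1 / 1000 := by
    have h0 := bq_diag p j T hL hu hui 0 0 (fun i _ => 0) (fun i => by
      change (1 : Matrix (Y p i) (Y p i) ℂ) = _
      rw [← Matrix.diagonal_one]; congr 1; funext x; simp) (fun i => by
      change (1 : Matrix (Y p i) (Y p i) ℂ) = _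
      rw [← Matrix.diagonal_one]; congr 1; funext x; simp)
    simpa using h0
  refine measureQ p hp hcop j (bq_nu p j T) (1 / 1000) (by norm_num) le_rfl
    (bq_bound p j T hT) (bq_lin p j T hL) hone (bq_supp p j T hT) ?_ ?_ ?_ ?_ ?_ ?_
    (bq_zero p j T hT (hp j))
  · have h := bq_diag p j T hL hu hui 1 2
      (fun i x => 2 * Real.pi * ((x.1.val : ℝ) / (p i : ℝ)))
      (fun i => by
        change Matrix.diagonal _ = Matrix.diagonal _
        congr 1; funext x; congr 1; push_cast; ring)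
      (fun i => by
        change Matrix.diagonal _ = Matrix.diagonal _
        congr 1; funext x; congr 1; push_cast; ring)
    simp only [← mul_sub] at h
    exact h
  · have h := bq_diag p j T hL hu hui 3 4
      (fun i x => 2 * Real.pi * ((x.2.val : ℝ) / (p i : ℝ)))
      (fun i => by
        change Matrix.diagonal _ = Matrix.diagonal _
        congr 1; funext x; congr 1; push_cast; ring)
      (fun i => by
        change Matrix.diagonal _ = Matrix.diagonal _
        congr 1; funext x; congr 1; push_cast; ring)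
    simp only [← mul_sub] at h
    exact h
  · intro F hF
    exact bq_equiv p j T hT hL hu hui (fun i => ⟨fun x => (x.1 + x.2, x.2), fun x => (x.1 - x.2, x.2),
      fun x => by simp, fun x => by simp⟩) 5 6 (fun i x y => rfl) (fun i x y => by
        change (if x = (y.1 - y.2, y.2) then (1 : ℂ) else 0) = if y = (x.1 + x.2, x.2) then 1 else 0
        congr 1
        apply propext
        constructor
        · rintro rfl; simp
        · rintro rfl; simp) F hF
  · intro F hF
    exact bq_equiv p j T hT hL hu hui (fun i => ⟨fun x => (x.1 - x.2, x.2), fun x => (x.1 + x.2, x.2),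
      fun x => by simp, fun x => by simp⟩) 6 5 (fun i x y => rfl) (fun i x y => by
        change (if x = (y.1 + y.2, y.2) then (1 : ℂ) else 0) = if y = (x.1 - x.2, x.2) then 1 else 0
        congr 1
        apply propext
        constructor
        · rintro rfl; simp
        · rintro rfl; simp) F hF
  · intro F hF
    exact bq_equiv p j T hT hL hu hui (fun i => ⟨fun x => (x.1, x.2 + x.1), fun x => (x.1, x.2 - x.1),
      fun x => by simp, fun x => by simp⟩) 7 8 (fun i x y => rfl) (fun i x y => by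
        change (if x = (y.1, y.2 - y.1) then (1 : ℂ) else 0) = if y = (x.1, x.2 + x.1) then 1 else 0
        congr 1
        apply propext
        constructor
        · rintro rfl; simp
        · rintro rfl; simp) F hF
  · intro F hF
    exact bq_equiv p j T hT hL hu hui (fun i => ⟨fun x => (x.1, x.2 - x.1), fun x => (x.1, x.2 + x.1),
      fun x => by simp, fun x => by simp⟩) 8 7 (fun i x y => rfl) (fun i x y => by
        change (if x = (y.1, y.2 + y.1) then (1 : ℂ) else 0) = if y = (x.1, x.2 - x.1) then 1 else 0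
        congr 1
        apply propext
        constructor
        · rintro rfl; simp
        · rintro rfl; simp) F hF

end Pool.Agent.Helper234.L1MAP
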