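import Mathlib
import Pool.Agent.Helper234.L1MAP.LDefs

set_option autoImplicit false
open scoped Matrix.Norms.L2Operator

namespace Pool.Agent.Helper234.L1MAP





namespace Ren7006

open Filter Topology

variable {𝕜 : Type} [RCLike 𝕜]

/-- `ℓ¹` -/
abbrev L1 (𝕜 : Type) [RCLike 𝕜] := lp (fun _ : ℕ => 𝕜) 1

theorem l1_norm (x : L1 𝕜) : ‖x‖ = ∑' n, ‖x n‖ := by
  rw [lp.norm_eq_tsum_rpow (by simp)]
  simp

theorem l1_summable (x : L1 𝕜) : Summable fun n => ‖x n‖ := by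
  have := (lp.memℓp x).summable (by simp)
  simpa using this

theorem l1_mem (a : ℕ → 𝕜) (h : Summable fun n => ‖a n‖) : Memℓp a 1 := by
  refine memℓp_gen ?_
  simpa using h

/-- shift to the left -/
noncomputable def tailF (x : L1 𝕜) : L1 𝕜 :=
  ⟨fun n => x (n + 1), l1_mem _ ((summable_nat_add_iff 1).2 (l1_summable x))⟩

theorem tailF_norm (x : L1 𝕜) : ‖x‖ = ‖x 0‖ + ‖tailF x‖ := by
  rw [l1_norm x, (l1_summable x).tsum_eq_zero_add, l1_norm (tailF x)]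
  rfl

/-- shift to the right -/
noncomputable def injF (y : L1 𝕜) : L1 𝕜 :=
  ⟨fun n => Nat.casesOn n 0 (fun m => y m), by
    refine l1_mem _ ?_
    rw [← summable_nat_add_iff 1]
    exact l1_summable y⟩

theorem injF_zero (y : L1 𝕜) : injF y 0 = 0 := rfl
theorem injF_succ (y : L1 𝕜) (n : ℕ) : injF y (n + 1) = y n := rfl
theorem tail_inj (y : L1 𝕜) : tailF (injF y) = y := by
  ext n
  rfl

theorem injF_norm (y : L1 𝕜) : ‖injF y‖ = ‖y‖ := by
  rw [tailF_norm (injF y), tail_inj, injF_zero, norm_zero, zero_add]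

/-- shift to the left as an operator -/
noncomputable def tail : L1 𝕜 →L[𝕜] L1 𝕜 :=
  LinearMap.mkContinuous
    { toFun := tailF
      map_add' := fun x y => by ext n; rfl
      map_smul' := fun a x => by ext n; rfl } 1 (fun x => by
      show ‖tailF x‖ ≤ 1 * ‖x‖
      rw [tailF_norm x]
      have := norm_nonneg (x 0)
      linarith)

/-- shift to the right as an operator -/
noncomputable def inj : L1 𝕜 →L[𝕜] L1 𝕜 :=
  LinearMap.mkContinuous
    { toFun := injF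
      map_add' := fun x y => by
        ext n
        cases n with
        | zero => show (0 : 𝕜) = 0 + 0; rw [add_zero]
        | succ n => rfl
      map_smul' := fun a x => by
        ext n
        cases n with
        | zero => show (0 : 𝕜) = a • 0; rw [smul_zero]
        | succ n => rfl } 1 (fun x => by
      show ‖injF x‖ ≤ 1 * ‖x‖
      rw [injF_norm x, one_mul])

theorem tail_apply (x : L1 𝕜) : tail x = tailF x := rfl
theorem inj_apply (x : L1 𝕜) : inj x = injF x := rfl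

theorem inj_single (n : ℕ) : inj (lp.single 1 n (1 : 𝕜)) = lp.single 1 (n + 1) (1 : 𝕜) := by
  ext m
  rw [inj_apply]
  cases m with
  | zero =>
    rw [injF_zero, lp.single_apply_ne _ _ _ (Nat.succ_ne_zero n).symm]
  | succ m =>
    rw [injF_succ, lp.single_apply, lp.single_apply, Pi.single_apply, Pi.single_apply]
    by_cases h : m = n
    · rw [if_pos h, if_pos (by rw [h])]
    · rw [if_neg h, if_neg (fun h' => h (Nat.succ_injective h'))]

theorem tail_single_zero : tail (lp.single 1 0 (1 : 𝕜) : L1 𝕜) = 0 := by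
  ext m
  rw [tail_apply]
  show (lp.single 1 0 (1 : 𝕜) : L1 𝕜) (m + 1) = 0
  exact lp.single_apply_ne _ _ _ (Nat.succ_ne_zero m)

section

variable {G : ℕ → Type} [∀ j, NormedAddCommGroup (G j)] [∀ j, NormedSpace 𝕜 (G j)]
  (c : ∀ j, L1 𝕜 →L[𝕜] G j)

/-- the vector whose norm is `q j x` -/
noncomputable def Phi (j : ℕ) (x : L1 𝕜) : WithLp 2 (𝕜 × G j) := WithLp.toLp 2 (x 0, c j (tail x))

theorem Phi_add (j : ℕ) (x y : L1 𝕜) : Phi c j (x + y) = Phi c j x + Phi c j y := by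
  unfold Phi
  rw [map_add, map_add]
  rfl

theorem Phi_smul (j : ℕ) (a : 𝕜) (x : L1 𝕜) : Phi c j (a • x) = a • Phi c j x := by
  unfold Phi
  rw [map_smul, map_smul]
  rfl

/-- the approximating seminorms -/
noncomputable def q (j : ℕ) (x : L1 𝕜) : ℝ := ‖Phi c j x‖

theorem q_nonneg (j : ℕ) (x : L1 𝕜) : 0 ≤ q c j x := norm_nonneg _

theorem q_add (j : ℕ) (x y : L1 𝕜) : q c j (x + y) ≤ q c j x + q c j y := by
  unfold q
  rw [Phi_add]
  exact norm_add_le _ _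

theorem q_smul (j : ℕ) (a : 𝕜) (x : L1 𝕜) : q c j (a • x) = ‖a‖ * q c j x := by
  unfold q
  rw [Phi_smul, norm_smul]

theorem q_sq (j : ℕ) (x : L1 𝕜) : q c j x ^ 2 = ‖x 0‖ ^ 2 + ‖c j (tail x)‖ ^ 2 := by
  unfold q
  rw [WithLp.prod_norm_sq_eq_of_L2]
  rfl

theorem q_ge0 (j : ℕ) (x : L1 𝕜) : ‖x 0‖ ≤ q c j x := by
  refine le_of_sq_le_sq ?_ (q_nonneg c j x)
  rw [q_sq]
  have := sq_nonneg ‖c j (tail x)‖
  linarith

theorem q_ge1 (j : ℕ) (x : L1 𝕜) : ‖c j (tail x)‖ ≤ q c j x := by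
  refine le_of_sq_le_sq ?_ (q_nonneg c j x)
  rw [q_sq]
  have := sq_nonneg ‖x 0‖
  linarith

theorem q_le (hc : ∀ j x, ‖c j x‖ ≤ 2 * ‖x‖) (j : ℕ) (x : L1 𝕜) : q c j x ≤ 2 * ‖x‖ := by
  refine le_of_sq_le_sq ?_ (by positivity)
  rw [q_sq, tailF_norm x]
  have h1 := hc j (tail x)
  rw [tail_apply] at h1 ⊢
  have h2 := norm_nonneg (x 0)
  have h3 := norm_nonneg (tailF x)
  have h4 := norm_nonneg (c j (tailF x))
  nlinarith [mul_nonneg h2 h3]

/-- the ultrafilter -/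
noncomputable def UU : Ultrafilter ℕ := hyperfilter ℕ

theorem UU_le : (UU : Filter ℕ) ≤ atTop := Nat.hyperfilter_le_atTop

theorem exists_Q (hc : ∀ j x, ‖c j x‖ ≤ 2 * ‖x‖) (x : L1 𝕜) :
    ∃ a : ℝ, Tendsto (fun j => q c j x) (UU : Filter ℕ) (𝓝 a) := by
  have h : ∀ j, q c j x ∈ Set.Icc (0 : ℝ) (2 * ‖x‖) := fun j => ⟨q_nonneg c j x, q_le c hc j x⟩
  have h2 : ((UU.map (fun j => q c j x) : Ultrafilter ℝ) : Filter ℝ) ≤
      𝓟 (Set.Icc (0 : ℝ) (2 * ‖x‖)) := by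
    rw [Ultrafilter.coe_map, le_principal_iff, mem_map]
    exact Filter.Eventually.of_forall h
  obtain ⟨a, -, ha⟩ := isCompact_Icc.ultrafilter_le_nhds (UU.map (fun j => q c j x)) h2
  exact ⟨a, ha⟩

theorem q_e0 (j : ℕ) (k : L1 𝕜) :
    q c j (lp.single 1 0 (1 : 𝕜) + inj k) ^ 2 = 1 + ‖c j k‖ ^ 2 := by
  rw [q_sq, map_add, tail_single_zero, zero_add, tail_apply, inj_apply, tail_inj]
  have h : (((lp.single 1 0 (1 : 𝕜) : L1 𝕜) + injF k : L1 𝕜) : ℕ → 𝕜) 0 = 1 := by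
    rw [lp.coeFn_add, Pi.add_apply, injF_zero, lp.single_apply_self, add_zero]
  rw [h, norm_one, one_pow]

theorem Q_le_one (x : L1 𝕜) (b : ℕ → ℝ) (hb : Tendsto b atTop (𝓝 0)) (Qx : ℝ)
    (hQ : Tendsto (fun j => q c j x) (UU : Filter ℕ) (𝓝 Qx)) (h : ∀ j, q c j x ^ 2 = 1 + b j ^ 2) :
    Qx ≤ 1 := by
  have h1 : Tendsto (fun j => q c j x ^ 2) (UU : Filter ℕ) (𝓝 (1 + 0 ^ 2)) := by
    simp only [h]
    exact ((hb.mono_left UU_le).pow 2).const_add _
  have h3 : Qx ^ 2 = 1 + 0 ^ 2 := tendsto_nhds_unique (hQ.pow 2) h1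
  have h4 : Qx ^ 2 ≤ 1 ^ 2 := by
    rw [h3]
    norm_num
  exact le_of_sq_le_sq h4 zero_le_one

end

end Ren7006

set_option maxHeartbeats 1000000 in
open Ren7006 Filter Topology in
theorem renorm {𝕜 : Type} [RCLike 𝕜] {G : ℕ → Type} [∀ j, NormedAddCommGroup (G j)]
    [∀ j, NormedSpace 𝕜 (G j)]
    (c : ∀ j, lp (fun _ : ℕ => 𝕜) 1 →L[𝕜] G j) (hc : ∀ j x, ‖c j x‖ ≤ 2 * ‖x‖)
    (hc1 : ∀ n : ℕ, ∀ δ : ℝ, 0 < δ → ∀ᶠ j in Filter.atTop, ‖c j (lp.single 1 n 1)‖ ≤ 1 + δ)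
    (F : Finset ℕ) (η : ℝ) (hη : 0 < η)
    (hno : ∀ (j : ℕ) (T : lp (fun _ : ℕ => 𝕜) 1 →L[𝕜] G j),
      (∀ n, ‖T (lp.single 1 n 1)‖ ≤ 1 + η) →
      (∀ k, Filter.Tendsto (fun i => ‖c i k‖) Filter.atTop (nhds 0) → ‖T k‖ ≤ η * ‖k‖) →
      (∀ n ∈ F, ‖T (lp.single 1 n 1) - c j (lp.single 1 n 1)‖ ≤ η) → False) :
    ∃ N : Seminorm 𝕜 (lp (fun _ : ℕ => 𝕜) 1),
      (∀ x, (1 / 2) * ‖x‖ ≤ N x ∧ N x ≤ 3 * ‖x‖) ∧ ¬ HasMAP N := by
  choose Q hQ using exists_Q c hc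
  have hQ0 : ∀ x, 0 ≤ Q x := fun x => ge_of_tendsto' (hQ x) fun j => q_nonneg c j x
  have hQadd : ∀ x y, Q (x + y) ≤ Q x + Q y := fun x y =>
    le_of_tendsto_of_tendsto' (hQ (x + y)) ((hQ x).add (hQ y)) fun j => q_add c j x y
  have hQsmul : ∀ (a : 𝕜) x, Q (a • x) = ‖a‖ * Q x := fun a x => by
    have h1 : Tendsto (fun j => q c j (a • x)) (UU : Filter ℕ) (𝓝 (‖a‖ * Q x)) := by
      simp only [q_smul]
      exact (hQ x).const_mul ‖a‖
    exact tendsto_nhds_unique (hQ (a • x)) h1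
  have hQle : ∀ x, Q x ≤ 2 * ‖x‖ := fun x => le_of_tendsto' (hQ x) fun j => q_le c hc j x
  let N : Seminorm 𝕜 (lp (fun _ : ℕ => 𝕜) 1) := Seminorm.of (fun x => max (Q x) ((1 / 2) * ‖x‖))
    (fun x y => by
      apply max_le
      · exact (hQadd x y).trans (add_le_add (le_max_left _ _) (le_max_left _ _))
      · have h1 := norm_add_le x y
        have h2 := le_max_right (Q x) ((1 / 2) * ‖x‖)
        have h3 := le_max_right (Q y) ((1 / 2) * ‖y‖)
        linarith)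
    (fun a x => by
      rw [hQsmul, norm_smul, mul_max_of_nonneg _ _ (norm_nonneg a)]
      congr 1
      ring)
  have hN : ∀ x, N x = max (Q x) ((1 / 2) * ‖x‖) := fun x => rfl
  have hNQ : ∀ x, Q x ≤ N x := fun x => by rw [hN]; exact le_max_left _ _
  have hNn : ∀ x, (1 / 2) * ‖x‖ ≤ N x := fun x => by rw [hN]; exact le_max_right _ _
  have hN0 : ∀ x, 0 ≤ N x := fun x => (hQ0 x).trans (hNQ x)
  refine ⟨N, fun x => ⟨hNn x, ?_⟩, ?_⟩
  · rw [hN]
    have h1 := hQle x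
    have h2 := norm_nonneg x
    apply max_le <;> linarith
  intro hMAP
  -- basic vectors
  have hNsucc : ∀ n : ℕ, N (lp.single 1 (n + 1) (1 : 𝕜)) ≤ 1 := by
    intro n
    rw [hN]
    apply max_le
    · refine le_of_forall_pos_le_add fun δ hδ => ?_
      refine le_of_tendsto (hQ _) ?_
      filter_upwards [UU_le (hc1 n δ hδ)] with j hj
      refine le_of_sq_le_sq ?_ (by linarith)
      rw [q_sq, lp.single_apply_ne _ _ _ (Nat.succ_ne_zero n).symm, ← inj_single, tail_apply,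
        inj_apply, tail_inj, norm_zero]
      have h0 := norm_nonneg (c j (lp.single 1 n (1 : 𝕜)))
      have hj' : ‖c j (lp.single 1 n (1 : 𝕜))‖ ≤ 1 + δ := hj
      nlinarith
    · rw [lp.norm_single (by simp)]
      simp
      norm_num
  have hNe0 : ∀ k : L1 𝕜, ‖k‖ ≤ 1 → Tendsto (fun i => ‖c i k‖) atTop (𝓝 0) →
      N (lp.single 1 0 (1 : 𝕜) + inj k) ≤ 1 := by
    intro k hk hck
    rw [hN]
    apply max_le
    · exact Q_le_one c _ (fun j => ‖c j k‖) hck _ (hQ _) (fun j => q_e0 c j k)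
    · have h1 : ‖lp.single 1 0 (1 : 𝕜) + inj k‖ ≤ 1 + ‖k‖ := by
        refine (norm_add_le _ _).trans ?_
        rw [lp.norm_single (by simp), norm_one, inj_apply, injF_norm]
      linarith
  have hN00 : ∀ x, ‖x 0‖ ≤ N x := fun x =>
    (ge_of_tendsto' (hQ x) fun j => q_ge0 c j x).trans (hNQ x)
  -- choose δ
  obtain ⟨δ, hδ0, hδ1, hδ2, hδ3⟩ : ∃ δ : ℝ, 0 < δ ∧ δ ≤ 1 / 4 ∧ 2 * δ ≤ η ∧ 9 * δ ≤ η ^ 2 := by
    refine ⟨min (1 / 4) (min (η / 2) (η ^ 2 / 9)), ?_, min_le_left _ _, ?_, ?_⟩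
    · positivity
    · have h1 : min (1 / 4) (min (η / 2) (η ^ 2 / 9)) ≤ η / 2 :=
        (min_le_right _ _).trans (min_le_left _ _)
      linarith
    · have h1 : min (1 / 4) (min (η / 2) (η ^ 2 / 9)) ≤ η ^ 2 / 9 :=
        (min_le_right _ _).trans (min_le_right _ _)
      linarith
  -- the finite set
  let K : Set (L1 𝕜) := insert (lp.single 1 0 (1 : 𝕜)) ((fun n : ℕ => (lp.single 1 (n + 1) (1 : 𝕜) : L1 𝕜)) '' (F : Set ℕ))
  have hK : IsCompact K := ((F.finite_toSet.image _).insert _).isCompact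
  obtain ⟨S, hSfd, hS1, hS2⟩ := hMAP K hK δ hδ0
  have hproper : ProperSpace (LinearMap.range (S : L1 𝕜 →ₗ[𝕜] L1 𝕜)) :=
    FiniteDimensional.proper_rclike 𝕜 _
  -- uniformity
  have hunif : ∀ᶠ j in (UU : Filter ℕ), ∀ y : L1 𝕜,
      y ∈ LinearMap.range (S : L1 𝕜 →ₗ[𝕜] L1 𝕜) → q c j y ≤ N y + δ * ‖y‖ := by
    have hcomp : IsCompact (Metric.sphere (0 : LinearMap.range (S : L1 𝕜 →ₗ[𝕜] L1 𝕜)) 1) :=
      isCompact_sphere _ _
    obtain ⟨t, -, htfin, htcov⟩ := hcomp.finite_cover_balls (by positivity : 0 < δ / 8)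
    have hev : ∀ᶠ j in (UU : Filter ℕ), ∀ z ∈ t, q c j (z : L1 𝕜) < Q (z : L1 𝕜) + δ / 4 := by
      rw [Filter.eventually_all_finite htfin]
      intro z _
      exact (hQ (z : L1 𝕜)).eventually (gt_mem_nhds (by linarith))
    filter_upwards [hev] with j hj
    have hsph : ∀ y : L1 𝕜, y ∈ LinearMap.range (S : L1 𝕜 →ₗ[𝕜] L1 𝕜) → ‖y‖ = 1 →
        q c j y ≤ N y + δ := by
      intro y hy hy1
      have hmem : (⟨y, hy⟩ : LinearMap.range (S : L1 𝕜 →ₗ[𝕜] L1 𝕜)) ∈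
          Metric.sphere (0 : LinearMap.range (S : L1 𝕜 →ₗ[𝕜] L1 𝕜)) 1 := by
        rw [mem_sphere_zero_iff_norm]
        exact hy1
      have := htcov hmem
      rw [Set.mem_iUnion₂] at this
      obtain ⟨z, hz, hyz⟩ := this
      have hd : ‖y - (z : L1 𝕜)‖ < δ / 8 := by
        rw [Metric.mem_ball, dist_eq_norm] at hyz
        exact hyz
      have e1 : q c j y ≤ q c j (z : L1 𝕜) + q c j (y - z) := by
        have := q_add c j (z : L1 𝕜) (y - z)
        rwa [add_sub_cancel] at this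
      have e2 := q_le c hc j (y - z)
      have e3 := hj z hz
      have e4 : Q (z : L1 𝕜) ≤ Q y + Q ((z : L1 𝕜) - y) := by
        have := hQadd y ((z : L1 𝕜) - y)
        rwa [add_sub_cancel] at this
      have e5 := hQle ((z : L1 𝕜) - y)
      rw [norm_sub_rev] at e5
      have e6 := hNQ y
      linarith
    intro y hy
    by_cases hy0 : y = 0
    · subst hy0
      have h1 := q_le c hc j (0 : L1 𝕜)
      rw [norm_zero, mul_zero] at h1
      have h2 := hN0 (0 : L1 𝕜)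
      rw [norm_zero, mul_zero]
      linarith
    · have hny : 0 < ‖y‖ := norm_pos_iff.2 hy0
      have h1 := hsph (((‖y‖⁻¹ : ℝ) : 𝕜) • y) (Submodule.smul_mem _ _ hy) (by
        rw [norm_smul, RCLike.norm_ofReal, abs_of_pos (by positivity), inv_mul_cancel₀ hny.ne'])
      rw [q_smul, map_smul_eq_mul, RCLike.norm_ofReal, abs_of_pos (by positivity)] at h1
      have h2 : ‖y‖ * (‖y‖⁻¹ * q c j y) ≤ ‖y‖ * (‖y‖⁻¹ * N y + δ) :=
        mul_le_mul_of_nonneg_left h1 hny.le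
      have h3 : ‖y‖ * (‖y‖⁻¹ * q c j y) = q c j y := by
        rw [← mul_assoc, mul_inv_cancel₀ hny.ne', one_mul]
      have h4 : ‖y‖ * (‖y‖⁻¹ * N y + δ) = N y + δ * ‖y‖ := by
        rw [mul_add, ← mul_assoc, mul_inv_cancel₀ hny.ne', one_mul, mul_comm ‖y‖ δ]
      linarith
  have hevF : ∀ᶠ j in (UU : Filter ℕ), ∀ n ∈ F,
      q c j (S (lp.single 1 (n + 1) (1 : 𝕜)) - lp.single 1 (n + 1) (1 : 𝕜)) <
        Q (S (lp.single 1 (n + 1) (1 : 𝕜)) - lp.single 1 (n + 1) (1 : 𝕜)) + δ := by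
    rw [Filter.eventually_all_finset]
    intro n _
    exact (hQ _).eventually (gt_mem_nhds (by linarith))
  obtain ⟨j, hj1, hj2⟩ := (hunif.and hevF).exists
  have hj1' : ∀ x : L1 𝕜, q c j (S x) ≤ (1 + 2 * δ) * N x := by
    intro x
    have h1 := hj1 (S x) ⟨x, rfl⟩
    have h2 := hNn (S x)
    have h3 := hS1 x
    have h4 := hN0 x
    have h5 := hN0 (S x)
    nlinarith
  refine hno j ((c j).comp (tail.comp (S.comp inj))) ?_ ?_ ?_
  · intro n
    show ‖c j (tail (S (inj (lp.single 1 n (1 : 𝕜)))))‖ ≤ 1 + η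
    rw [inj_single]
    have h1 := q_ge1 c j (S (lp.single 1 (n + 1) (1 : 𝕜)))
    have h2 := hj1' (lp.single 1 (n + 1) (1 : 𝕜))
    have h3 := hNsucc n
    nlinarith
  · intro k hk
    show ‖c j (tail (S (inj k)))‖ ≤ η * ‖k‖
    have hunit : ∀ k : L1 𝕜, Tendsto (fun i => ‖c i k‖) atTop (𝓝 0) → ‖k‖ = 1 →
        ‖c j (tail (S (inj k)))‖ ≤ η := by
      intro k hk hk1
      have p1 := hNe0 k hk1.le hk
      have hk' : Tendsto (fun i => ‖c i (-k)‖) atTop (𝓝 0) := by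
        simpa only [map_neg, norm_neg] using hk
      have p2 := hNe0 (-k) (by rw [norm_neg]; exact hk1.le) hk'
      have p3 := hj1' (lp.single 1 0 (1 : 𝕜) + inj k)
      have p4 := hj1' (lp.single 1 0 (1 : 𝕜) + inj (-k))
      set w : L1 𝕜 := S (lp.single 1 0 (1 : 𝕜)) with hw
      set v : L1 𝕜 := S (inj k) with hv
      have e1 : S (lp.single 1 0 (1 : 𝕜) + inj k) = w + v := by rw [map_add]
      have e2 : S (lp.single 1 0 (1 : 𝕜) + inj (-k)) = w - v := by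
        rw [map_add, map_neg, map_neg, ← sub_eq_add_neg]
      rw [e1] at p3
      rw [e2] at p4
      have hB1 : q c j (w + v) ≤ 1 + 2 * δ := by nlinarith
      have hB2 : q c j (w - v) ≤ 1 + 2 * δ := by nlinarith
      have s1 : q c j (w + v) ^ 2 ≤ (1 + 2 * δ) ^ 2 := pow_le_pow_left₀ (q_nonneg _ _ _) hB1 2
      have s2 : q c j (w - v) ^ 2 ≤ (1 + 2 * δ) ^ 2 := pow_le_pow_left₀ (q_nonneg _ _ _) hB2 2
      rw [q_sq] at s1 s2
      have hw0 : 1 - δ ≤ ‖w 0‖ := by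
        have h1 := hS2 (lp.single 1 0 (1 : 𝕜)) (Set.mem_insert _ _)
        have h2 := (hN00 _).trans h1
        rw [lp.coeFn_sub, Pi.sub_apply, lp.single_apply_self] at h2
        have h3 : ‖(1 : 𝕜)‖ ≤ ‖w 0‖ + ‖w 0 - 1‖ := by
          have := norm_sub_le (w 0) (w 0 - 1)
          rwa [sub_sub_cancel] at this
        rw [norm_one] at h3
        linarith
      have par0 : ‖(w + v) 0‖ ^ 2 + ‖(w - v) 0‖ ^ 2 ≥ 2 * ‖w 0‖ ^ 2 := by
        rw [lp.coeFn_add, lp.coeFn_sub, Pi.add_apply, Pi.sub_apply]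
        have h1 : ‖(2 : 𝕜) * w 0‖ ≤ ‖w 0 + v 0‖ + ‖w 0 - v 0‖ := by
          have := norm_add_le (w 0 + v 0) (w 0 - v 0)
          rwa [show w 0 + v 0 + (w 0 - v 0) = (2 : 𝕜) * w 0 by ring] at this
        rw [norm_mul, RCLike.norm_ofNat] at h1
        have h2 := norm_nonneg (w 0)
        have h3 := norm_nonneg (w 0 + v 0)
        have h4 := norm_nonneg (w 0 - v 0)
        nlinarith [sq_nonneg (‖w 0 + v 0‖ - ‖w 0 - v 0‖)]
      have par1 : ‖c j (tail (w + v))‖ ^ 2 + ‖c j (tail (w - v))‖ ^ 2 ≥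
          2 * ‖c j (tail v)‖ ^ 2 := by
        rw [map_add, map_add, map_sub, map_sub]
        set A := c j (tail w)
        set B := c j (tail v)
        have h1 : 2 * ‖B‖ ≤ ‖A + B‖ + ‖A - B‖ := by
          have := norm_sub_le (A + B) (A - B)
          rw [show A + B - (A - B) = (2 : 𝕜) • B by rw [two_smul]; abel] at this
          rw [norm_smul, RCLike.norm_ofNat] at this
          exact this
        have h2 := norm_nonneg B
        have h3 := norm_nonneg (A + B)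
        have h4 := norm_nonneg (A - B)
        nlinarith [sq_nonneg (‖A + B‖ - ‖A - B‖)]
      have hfin : ‖c j (tail v)‖ ^ 2 ≤ η ^ 2 := by
        have h5 : (1 - δ) ^ 2 ≤ ‖w 0‖ ^ 2 := pow_le_pow_left₀ (by linarith) hw0 2
        nlinarith
      exact le_of_sq_le_sq hfin hη.le
    by_cases hk0 : k = 0
    · subst hk0
      simp
    · have hkn : 0 < ‖k‖ := norm_pos_iff.2 hk0
      have h1 := hunit (((‖k‖⁻¹ : ℝ) : 𝕜) • k) (by
        simp only [map_smul, norm_smul]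
        simpa using hk.const_mul ‖(((‖k‖⁻¹ : ℝ) : 𝕜))‖) (by
        rw [norm_smul, RCLike.norm_ofReal, abs_of_pos (by positivity), inv_mul_cancel₀ hkn.ne'])
      rw [map_smul, map_smul, map_smul, map_smul, norm_smul, RCLike.norm_ofReal,
        abs_of_pos (by positivity)] at h1
      rwa [inv_mul_eq_div, div_le_iff₀ hkn] at h1
  · intro n hn
    show ‖c j (tail (S (inj (lp.single 1 n (1 : 𝕜))))) - c j (lp.single 1 n (1 : 𝕜))‖ ≤ η
    have e1 : c j (tail (S (inj (lp.single 1 n (1 : 𝕜))))) - c j (lp.single 1 n (1 : 𝕜)) =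
        c j (tail (S (lp.single 1 (n + 1) (1 : 𝕜)) - lp.single 1 (n + 1) (1 : 𝕜))) := by
      rw [map_sub, map_sub, inj_single]
      congr 2
      rw [← inj_single, tail_apply, inj_apply, tail_inj]
    rw [e1]
    have h1 := q_ge1 c j (S (lp.single 1 (n + 1) (1 : 𝕜)) - lp.single 1 (n + 1) (1 : 𝕜))
    have h2 := hj2 n hn
    have h3 := hNQ (S (lp.single 1 (n + 1) (1 : 𝕜)) - lp.single 1 (n + 1) (1 : 𝕜))
    have h4 := hS2 (lp.single 1 (n + 1) (1 : 𝕜)) (Set.mem_insert_of_mem _ ⟨n, hn, rfl⟩)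
    linarith

end Pool.Agent.Helper234.L1MAP
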