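import Mathlib

set_option autoImplicit false
open scoped Matrix.Norms.L2Operator

namespace Pool.Agent.Helper234.L1MAP



theorem transfer_clm {𝕜 : Type} [RCLike 𝕜] {H : Type} [NormedAddCommGroup H] [NormedSpace 𝕜 H]
    [CompleteSpace H] (z : ℕ → H) (hz : ∀ n, ‖z n‖ ≤ 2) :
    ∃ c : lp (fun _ : ℕ => 𝕜) 1 →L[𝕜] H, (∀ y, ‖c y‖ ≤ 2 * ‖y‖) ∧
      ∀ n, c (lp.single 1 n 1) = z n := by
  have hsum : ∀ y : lp (fun _ : ℕ => 𝕜) 1, HasSum (fun n => ‖y n‖) ‖y‖ := by
    intro y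
    have h := lp.hasSum_norm (p := 1) (by norm_num) y
    simpa using h
  have hs1 : ∀ y : lp (fun _ : ℕ => 𝕜) 1, Summable (fun n => ‖y n • z n‖) := by
    intro y
    refine Summable.of_nonneg_of_le (fun n => norm_nonneg _) (fun n => ?_)
      ((hsum y).summable.mul_left 2)
    rw [norm_smul, mul_comm]
    exact mul_le_mul_of_nonneg_right (hz n) (norm_nonneg _)
  have hs2 : ∀ y : lp (fun _ : ℕ => 𝕜) 1, Summable (fun n => y n • z n) :=
    fun y => (hs1 y).of_norm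
  let L : lp (fun _ : ℕ => 𝕜) 1 →ₗ[𝕜] H :=
    { toFun := fun y => ∑' n, y n • z n
      map_add' := by
        intro a b
        rw [← (hs2 a).tsum_add (hs2 b)]
        refine tsum_congr fun n => ?_
        rw [lp.coeFn_add, Pi.add_apply, add_smul]
      map_smul' := by
        intro a b
        simp only [RingHom.id_apply]
        rw [← (hs2 b).tsum_const_smul a]
        refine tsum_congr fun n => ?_
        rw [lp.coeFn_smul, Pi.smul_apply, smul_assoc] }
  have hL : ∀ y, ‖L y‖ ≤ 2 * ‖y‖ := by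
    intro y
    have h1 : ‖L y‖ ≤ ∑' n, ‖y n • z n‖ := norm_tsum_le_tsum_norm (hs1 y)
    refine h1.trans ?_
    rw [← (hsum y).tsum_eq, ← tsum_mul_left]
    refine (hs1 y).tsum_le_tsum (fun n => ?_) ((hsum y).summable.mul_left 2)
    rw [norm_smul, mul_comm]
    exact mul_le_mul_of_nonneg_right (hz n) (norm_nonneg _)
  refine ⟨L.mkContinuous 2 hL, fun y => hL y, fun n => ?_⟩
  have h1 : L (lp.single 1 n 1) = z n := by
    have h2 : L (lp.single 1 n 1) = ∑' m, (lp.single (E := fun _ : ℕ => 𝕜) 1 n 1) m • z m := rfl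
    rw [h2, tsum_eq_single n]
    · rw [lp.single_apply_self, one_smul]
    · intro m hm
      rw [lp.single_apply_ne _ _ _ hm, zero_smul]
  exact h1

/-- upper limit of the norms -/
theorem transfer_r {G : ℕ → Type} [∀ i, NormedAddCommGroup (G i)] [∀ i, NormedSpace ℝ (G i)]
    (w : ∀ i, G i) (hw : ∃ c, ∀ i, ‖w i‖ ≤ c) :
    ∃ (r : ℝ) (z : ∀ i, G i), 0 ≤ r ∧ (∀ c, (∀ᶠ i in Filter.atTop, ‖w i‖ ≤ c) → r ≤ c) ∧
      (∀ i, ‖z i‖ ≤ 2) ∧ (∀ δ : ℝ, 0 < δ → ∀ᶠ i in Filter.atTop, ‖z i‖ ≤ 1 + δ) ∧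
      Filter.Tendsto (fun i => ‖r • z i - w i‖) Filter.atTop (nhds 0) ∧
      ((∀ i, ‖w i‖ = 1) → r = 1 ∧ z = w) := by
  classical
  obtain ⟨c0, hc0⟩ := hw
  obtain ⟨A, hA⟩ : ∃ A : Set ℝ, A = {c | ∀ᶠ i in Filter.atTop, ‖w i‖ ≤ c} := ⟨_, rfl⟩
  have hAmem : ∀ c, c ∈ A ↔ ∀ᶠ i in Filter.atTop, ‖w i‖ ≤ c := by
    intro c; rw [hA]; rfl
  have hAne : A.Nonempty := ⟨c0, (hAmem c0).mpr (Filter.Eventually.of_forall hc0)⟩
  have hA0 : ∀ c ∈ A, 0 ≤ c := by
    intro c hc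
    obtain ⟨i, hi⟩ := ((hAmem c).mp hc).exists
    exact (norm_nonneg _).trans hi
  have hAbd : BddBelow A := ⟨0, hA0⟩
  obtain ⟨r, hr⟩ : ∃ r, r = sInf A := ⟨_, rfl⟩
  have hr0 : 0 ≤ r := by rw [hr]; exact le_csInf hAne hA0
  have hrle : ∀ c, (∀ᶠ i in Filter.atTop, ‖w i‖ ≤ c) → r ≤ c := by
    intro c hc
    rw [hr]
    exact csInf_le hAbd ((hAmem c).mpr hc)
  have hev : ∀ δ : ℝ, 0 < δ → ∀ᶠ i in Filter.atTop, ‖w i‖ ≤ r + δ := by
    intro δ hδ
    obtain ⟨c, hc, hc2⟩ := exists_lt_of_csInf_lt hAne (show sInf A < r + δ by rw [← hr]; linarith)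
    filter_upwards [(hAmem c).mp hc] with i hi
    linarith
  refine ⟨r, fun i => if 0 < r ∧ ‖w i‖ ≤ 2 * r then r⁻¹ • w i else 0, hr0, hrle, ?_, ?_, ?_, ?_⟩
  · intro i
    by_cases h : 0 < r ∧ ‖w i‖ ≤ 2 * r
    · simp only [if_pos h]
      rw [norm_smul, norm_inv, Real.norm_eq_abs, abs_of_pos h.1, inv_mul_le_iff₀ h.1]
      linarith [h.2]
    · simp only [if_neg h]
      simp
  · intro δ hδ
    rcases hr0.eq_or_lt with h0 | h0
    · refine Filter.Eventually.of_forall fun i => ?_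
      have hn : ¬ (0 < r ∧ ‖w i‖ ≤ 2 * r) := fun h => by rw [← h0] at h; exact lt_irrefl _ h.1
      simp only [if_neg hn]
      rw [norm_zero]
      linarith
    · filter_upwards [hev (δ * r) (by positivity)] with i hi
      by_cases h : 0 < r ∧ ‖w i‖ ≤ 2 * r
      · simp only [if_pos h]
        rw [norm_smul, norm_inv, Real.norm_eq_abs, abs_of_pos h.1, inv_mul_le_iff₀ h.1]
        linarith
      · simp only [if_neg h]
        rw [norm_zero]; linarith
  · rcases hr0.eq_or_lt with h0 | h0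
    · have h1 : (fun i => ‖r • (if 0 < r ∧ ‖w i‖ ≤ 2 * r then r⁻¹ • w i else 0) - w i‖)
          = fun i => ‖w i‖ := by
        funext i
        rw [← h0, zero_smul, zero_sub, norm_neg]
      rw [h1, Metric.tendsto_nhds]
      intro δ hδ
      filter_upwards [hev (δ / 2) (by positivity)] with i hi
      rw [dist_zero_right, norm_norm]
      rw [← h0] at hi
      linarith
    · refine tendsto_const_nhds.congr' ?_
      filter_upwards [hev r h0] with i hi
      have h : 0 < r ∧ ‖w i‖ ≤ 2 * r := ⟨h0, by linarith⟩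
      rw [if_pos h, smul_inv_smul₀ h0.ne', sub_self, norm_zero]
  · intro h1
    have hr1 : r = 1 := by
      apply le_antisymm
      · exact hrle 1 (Filter.Eventually.of_forall fun i => (h1 i).le)
      · rw [hr]
        refine le_csInf hAne fun c hc => ?_
        obtain ⟨i, hi⟩ := ((hAmem c).mp hc).exists
        rwa [h1 i] at hi
    refine ⟨hr1, ?_⟩
    funext i
    have h : 0 < r ∧ ‖w i‖ ≤ 2 * r := by
      rw [hr1, h1 i]; norm_num
    rw [if_pos h, hr1, inv_one, one_smul]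

theorem transfer {𝕜 : Type} [RCLike 𝕜] {G : ℕ → Type} [∀ i, NormedAddCommGroup (G i)]
    [∀ i, NormedSpace ℝ (G i)] [∀ i, NormedSpace 𝕜 (G i)] [∀ i, IsScalarTower ℝ 𝕜 (G i)]
    [∀ i, CompleteSpace (G i)] {Λ : Type} [Finite Λ]
    (v : Λ → ∀ i, G i) (hv : ∀ k i, ‖v k i‖ = 1) (ε : ℝ) (hε : 0 < ε)
    (hE : ∀ j, ∃ E : Finset (∀ i, G i), (∀ x ∈ E, ∃ c, ∀ i, ‖x i‖ ≤ c) ∧
      ∀ T : (∀ i, G i) → G j,
        (∀ x ∈ E, ∀ c : ℝ, (∀ᶠ i in Filter.atTop, ‖x i‖ ≤ c) → ‖T x‖ ≤ (1 + ε) * c) →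
        (∀ x ∈ E, ∀ y ∈ E, ∀ a b c d : ℝ, (fun i => a • x i + b • y i) ∈ E →
          (∀ᶠ i in Filter.atTop, ‖x i‖ ≤ c) → (∀ᶠ i in Filter.atTop, ‖y i‖ ≤ d) →
          ‖T (fun i => a • x i + b • y i) - (a • T x + b • T y)‖ ≤ ε * (|a| * c + |b| * d)) →
        (∀ k, ‖T (v k) - v k j‖ ≤ ε) → False) :
    ∃ (c : ∀ j, lp (fun _ : ℕ => 𝕜) 1 →L[𝕜] G j) (F : Finset ℕ) (η : ℝ), 0 < η ∧
      (∀ j x, ‖c j x‖ ≤ 2 * ‖x‖) ∧
      (∀ n : ℕ, ∀ δ : ℝ, 0 < δ → ∀ᶠ j in Filter.atTop, ‖c j (lp.single 1 n 1)‖ ≤ 1 + δ) ∧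
      (∀ (j : ℕ) (T : lp (fun _ : ℕ => 𝕜) 1 →L[𝕜] G j),
        (∀ n, ‖T (lp.single 1 n 1)‖ ≤ 1 + η) →
        (∀ k, Filter.Tendsto (fun i => ‖c i k‖) Filter.atTop (nhds 0) → ‖T k‖ ≤ η * ‖k‖) →
        (∀ n ∈ F, ‖T (lp.single 1 n 1) - c j (lp.single 1 n 1)‖ ≤ η) → False) := by
  classical
  choose E hEb hEf using hE
  obtain ⟨S, hS⟩ : ∃ S : Set (∀ i, G i), S = (⋃ j, (↑(E j) : Set (∀ i, G i))) ∪ Set.range v ∪ {0} :=
    ⟨_, rfl⟩
  have hSc : S.Countable := by
    rw [hS]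
    refine Set.Countable.union (Set.Countable.union ?_ ?_) (Set.countable_singleton _)
    · exact Set.countable_iUnion fun j => (E j).countable_toSet
    · exact (Set.finite_range v).countable
  have hSne : S.Nonempty := ⟨0, by rw [hS]; exact Or.inr rfl⟩
  obtain ⟨x, hx⟩ := hSc.exists_eq_range hSne
  have hSb : ∀ w ∈ S, ∃ c, ∀ i, ‖w i‖ ≤ c := by
    intro w hw
    rw [hS] at hw
    rcases hw with (hw | hw) | hw
    · obtain ⟨j, hj⟩ := Set.mem_iUnion.mp hw
      exact hEb j w hj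
    · obtain ⟨k, rfl⟩ := hw
      exact ⟨1, fun i => (hv k i).le⟩
    · rw [Set.mem_singleton_iff] at hw
      rw [hw]
      exact ⟨0, fun i => by simp⟩
  have hES : ∀ j, ∀ w ∈ E j, w ∈ S := by
    intro j w hw
    rw [hS]
    exact Or.inl (Or.inl (Set.mem_iUnion.mpr ⟨j, hw⟩))
  have hvS : ∀ k, v k ∈ S := by
    intro k
    rw [hS]
    exact Or.inl (Or.inr ⟨k, rfl⟩)
  have hxb : ∀ n, ∃ c, ∀ i, ‖x n i‖ ≤ c := fun n => hSb _ (by rw [hx]; exact ⟨n, rfl⟩)
  choose r z hr0 hrle hz2 hz1 hzt hzone using fun n => transfer_r (x n) (hxb n)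
  choose c hc2 hcz using fun j => transfer_clm (𝕜 := 𝕜) (fun n => z n j) (fun n => hz2 n j)
  have hidx : ∀ w, ∃ n, w ∈ S → x n = w := by
    intro w
    by_cases h : w ∈ S
    · rw [hx] at h
      obtain ⟨n, hn⟩ := h
      exact ⟨n, fun _ => hn⟩
    · exact ⟨0, fun h' => absurd h' h⟩
  choose idx hidx using hidx
  refine ⟨c, (Set.finite_range (fun k => idx (v k))).toFinset, ε / 2, by positivity, hc2, ?_, ?_⟩
  · intro n δ hδ
    filter_upwards [hz1 n δ hδ] with j hj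
    rw [hcz]
    exact hj
  · intro j T hT1 hT2 hT3
    refine hEf j (fun w => r (idx w) • T (lp.single 1 (idx w) 1)) ?_ ?_ ?_
    · intro w hw c' hc'
      have hwx := hidx w (hES j w hw)
      have h1 : r (idx w) ≤ c' := hrle (idx w) c' (by rw [hwx]; exact hc')
      have h0 := hr0 (idx w)
      rw [norm_smul, Real.norm_eq_abs, abs_of_nonneg h0]
      calc r (idx w) * ‖T (lp.single 1 (idx w) 1)‖ ≤ r (idx w) * (1 + ε / 2) :=
            mul_le_mul_of_nonneg_left (hT1 _) h0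
        _ ≤ c' * (1 + ε) := mul_le_mul h1 (by linarith) (by positivity) (h0.trans h1)
        _ = (1 + ε) * c' := mul_comm _ _
    · intro w1 hw1 w2 hw2 a b c1 c2 hw3 hc1 hc2'
      have e1 := hidx w1 (hES j w1 hw1)
      have e2 := hidx w2 (hES j w2 hw2)
      have e3 := hidx _ (hES j _ hw3)
      obtain ⟨w3, hw3e⟩ : ∃ w3 : ∀ i, G i, w3 = fun i => a • w1 i + b • w2 i := ⟨_, rfl⟩
      rw [← hw3e] at e3 ⊢
      have hw3i : ∀ i, w3 i = a • w1 i + b • w2 i := by intro i; rw [hw3e]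
      have r1 : r (idx w1) ≤ c1 := hrle (idx w1) c1 (by rw [e1]; exact hc1)
      have r2 : r (idx w2) ≤ c2 := hrle (idx w2) c2 (by rw [e2]; exact hc2')
      have r3 : r (idx w3) ≤ |a| * c1 + |b| * c2 := by
        apply hrle (idx w3)
        rw [e3]
        filter_upwards [hc1, hc2'] with i hi1 hi2
        rw [hw3i]
        refine (norm_add_le _ _).trans ?_
        rw [norm_smul, norm_smul, Real.norm_eq_abs, Real.norm_eq_abs]
        have := mul_le_mul_of_nonneg_left hi1 (abs_nonneg a)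
        have := mul_le_mul_of_nonneg_left hi2 (abs_nonneg b)
        linarith
      obtain ⟨k, hk⟩ : ∃ k : lp (fun _ : ℕ => 𝕜) 1, k = ((r (idx w3) : ℝ) : 𝕜) • lp.single 1 (idx w3) (1:𝕜)
        - (((a * r (idx w1) : ℝ) : 𝕜) • lp.single 1 (idx w1) (1:𝕜)
          + ((b * r (idx w2) : ℝ) : 𝕜) • lp.single 1 (idx w2) (1:𝕜)) := ⟨_, rfl⟩
      have hsn : ∀ n : ℕ, ‖lp.single (E := fun _ : ℕ => 𝕜) 1 n (1:𝕜)‖ = 1 := by
        intro n
        rw [lp.norm_single (by norm_num), norm_one]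
      have hkn : ‖k‖ ≤ 2 * (|a| * c1 + |b| * c2) := by
        rw [hk]
        refine (norm_sub_le _ _).trans ?_
        have n1 : ‖((r (idx w3) : ℝ) : 𝕜) • lp.single (E := fun _ : ℕ => 𝕜) 1 (idx w3) (1:𝕜)‖
            = r (idx w3) := by
          rw [norm_smul, hsn, mul_one, RCLike.norm_ofReal, abs_of_nonneg (hr0 _)]
        have n2 : ‖((a * r (idx w1) : ℝ) : 𝕜) • lp.single (E := fun _ : ℕ => 𝕜) 1 (idx w1) (1:𝕜)‖
            = |a| * r (idx w1) := by
          rw [norm_smul, hsn, mul_one, RCLike.norm_ofReal, abs_mul, abs_of_nonneg (hr0 _)]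
        have n3 : ‖((b * r (idx w2) : ℝ) : 𝕜) • lp.single (E := fun _ : ℕ => 𝕜) 1 (idx w2) (1:𝕜)‖
            = |b| * r (idx w2) := by
          rw [norm_smul, hsn, mul_one, RCLike.norm_ofReal, abs_mul, abs_of_nonneg (hr0 _)]
        have n4 := norm_add_le (((a * r (idx w1) : ℝ) : 𝕜) • lp.single (E := fun _ : ℕ => 𝕜) 1 (idx w1) (1:𝕜))
          (((b * r (idx w2) : ℝ) : 𝕜) • lp.single (E := fun _ : ℕ => 𝕜) 1 (idx w2) (1:𝕜))
        rw [n2, n3] at n4
        rw [n1]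
        have := mul_le_mul_of_nonneg_left r1 (abs_nonneg a)
        have := mul_le_mul_of_nonneg_left r2 (abs_nonneg b)
        linarith
      have hlin : ∀ (i : ℕ) (T' : lp (fun _ : ℕ => 𝕜) 1 →L[𝕜] G i), T' k
          = r (idx w3) • T' (lp.single 1 (idx w3) 1)
            - (a • r (idx w1) • T' (lp.single 1 (idx w1) 1)
              + b • r (idx w2) • T' (lp.single 1 (idx w2) 1)) := by
        intro i T'
        rw [hk, map_sub, map_add, map_smul, map_smul, map_smul,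
          ← RCLike.real_smul_eq_coe_smul, ← RCLike.real_smul_eq_coe_smul,
          ← RCLike.real_smul_eq_coe_smul, mul_smul, mul_smul]
      have hkt : Filter.Tendsto (fun i => ‖c i k‖) Filter.atTop (nhds 0) := by
        have t1 := hzt (idx w1)
        have t2 := hzt (idx w2)
        have t3 := hzt (idx w3)
        rw [e1] at t1
        rw [e2] at t2
        rw [e3] at t3
        have t4 := t3.add ((t1.const_mul |a|).add (t2.const_mul |b|))
        simp only [mul_zero, add_zero] at t4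
        refine squeeze_zero (fun i => norm_nonneg _) (fun i => ?_) t4
        rw [hlin i (c i), hcz, hcz, hcz]
        have h5 : r (idx w3) • z (idx w3) i - (a • r (idx w1) • z (idx w1) i
            + b • r (idx w2) • z (idx w2) i)
            = (r (idx w3) • z (idx w3) i - w3 i) - (a • (r (idx w1) • z (idx w1) i - w1 i)
              + b • (r (idx w2) • z (idx w2) i - w2 i)) := by
          rw [hw3i, smul_sub, smul_sub]
          abel
        rw [h5]
        refine (norm_sub_le _ _).trans ?_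
        have h6 := norm_add_le (a • (r (idx w1) • z (idx w1) i - w1 i))
          (b • (r (idx w2) • z (idx w2) i - w2 i))
        rw [norm_smul, norm_smul, Real.norm_eq_abs, Real.norm_eq_abs] at h6
        linarith
      have h7 := hT2 k hkt
      rw [hlin j T] at h7
      refine h7.trans ?_
      have h8 : ε / 2 * ‖k‖ ≤ ε / 2 * (2 * (|a| * c1 + |b| * c2)) :=
        mul_le_mul_of_nonneg_left hkn (by positivity)
      linarith
    · intro k
      have hkx := hidx (v k) (hvS k)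
      obtain ⟨h1, h2⟩ := hzone (idx (v k)) (by rw [hkx]; exact hv k)
      have h3 := hT3 (idx (v k)) (by simp)
      rw [hcz, h2, hkx] at h3
      rw [h1, one_smul]
      linarith

end Pool.Agent.Helper234.L1MAP
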