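import Mathlib
import Pool.Agent.Helper234.L1MAP.LDefs
import Pool.Agent.Helper234.L1MAP.Baseq
import Pool.Agent.Helper234.L1MAP.Cptq
import Pool.Agent.Helper234.L1MAP.Trans
import Pool.Agent.Helper234.L1MAP.Renorm
import Pool.Agent.Helper234.Calkin.Defs

set_option autoImplicit false
open scoped Matrix.Norms.L2Operator

namespace Pool.Agent.Helper234.L1MAP

open Pool.Agent.Helper234.Calkin (Y sMat uMat symW e11)

/-! ### Assembly -/

/-- odd primes -/
noncomputable def prm (i : ℕ) : ℕ := Nat.nth Nat.Prime (i + 1)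

theorem prm_prime (i : ℕ) : (prm i).Prime := Nat.prime_nth_prime _

theorem prm_three (i : ℕ) : 3 ≤ prm i := by
  have h1 : Nat.nth Nat.Prime 1 ≤ prm i :=
    Nat.nth_monotone Nat.infinite_setOfPred_prime (by omega)
  have h2 : Nat.nth Nat.Prime 1 = 3 := Nat.nth_prime_one_eq_three
  omega

theorem prm_coprime (i i' : ℕ) (h : i ≠ i') : Nat.Coprime (prm i) (prm i') := by
  refine (Nat.coprime_primes (prm_prime i) (prm_prime i')).2 fun h' => h ?_
  have := Nat.nth_injective Nat.infinite_setOfPred_prime h'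
  omega

noncomputable instance prm_neZero (i : ℕ) : NeZero (prm i) := ⟨(prm_prime i).ne_zero⟩

/-- the levels -/
abbrev Gm (i : ℕ) : Type := Matrix (Fin 2 × Y prm i) (Fin 2 × Y prm i) ℂ

/-- the distinguished elements -/
noncomputable def vv (k : Bool × (Fin 2 × Fin 2 × Fin 9)) (i : ℕ) : Gm i :=
  if k.1 then Complex.I • uMat prm k.2 i else uMat prm k.2 i

theorem vv_norm (k : Bool × (Fin 2 × Fin 2 × Fin 9)) (i : ℕ) : ‖vv k i‖ = 1 := by
  unfold vv
  split_ifs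
  · rw [norm_smul, Complex.norm_I, uMat_norm_eq, mul_one]
  · exact uMat_norm_eq _ _ _

theorem noT (j : ℕ) (T : (∀ i, Gm i) → Gm j)
    (hT : ∀ (x : ∀ i, Gm i) (c : ℝ), (∀ᶠ i in Filter.atTop, ‖x i‖ ≤ c) →
      ‖T x‖ ≤ (1 + 1 / 10 ^ 16) * c)
    (hL : ∀ (x y : ∀ i, Gm i) (a b c d : ℝ), (∀ᶠ i in Filter.atTop, ‖x i‖ ≤ c) →
      (∀ᶠ i in Filter.atTop, ‖y i‖ ≤ d) →
      ‖T (fun i => a • x i + b • y i) - (a • T x + b • T y)‖ ≤ 1 / 10 ^ 16 * (|a| * c + |b| * d))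
    (hv : ∀ k, ‖T (vv k) - vv k j‖ ≤ 1 / 10 ^ 16) : False := by
  refine baseQ prm prm_three prm_coprime j T hT ?_ ?_ ?_
  · intro x y a b c d hx hy
    have := hL x y a b c d hx hy
    simpa only [Complex.coe_smul] using this
  · intro k
    have h := hv (false, k)
    have e : vv (false, k) = uMat prm k := by funext i; simp [vv]
    rwa [e] at h
  · intro k
    have h := hv (true, k)
    have e : vv (true, k) = fun i => Complex.I • uMat prm k i := by funext i; simp [vv]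
    rwa [e] at h

theorem main (𝕜 : Type) [RCLike 𝕜] [∀ i, NormedSpace 𝕜 (Gm i)]
    [∀ i, IsScalarTower ℝ 𝕜 (Gm i)] : RenormFailsMAP 𝕜 (lp (fun _ : ℕ => 𝕜) 1) := by
  obtain ⟨c, F, η, hη, h1, h2, h3⟩ := transfer (𝕜 := 𝕜) (G := Gm) vv vv_norm (1 / 10 ^ 16)
    (by positivity) (fun j => cptQ vv (fun k i => (vv_norm k i).le) j (1 / 10 ^ 16)
      (by positivity) (noT j))
  obtain ⟨N, hN, hN'⟩ := renorm c h1 h2 F η hη h3
  exact ⟨N, ⟨1 / 2, 3, by norm_num, hN⟩, hN'⟩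

theorem final : RenormFailsMAP ℝ (lp (fun _ : ℕ => ℝ) 1) ∧
    RenormFailsMAP ℂ (lp (fun _ : ℕ => ℂ) 1) := ⟨main ℝ, main ℂ⟩



end Pool.Agent.Helper234.L1MAP
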